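import Pool.Agent.H4.Det3

set_option autoImplicit false

namespace Pool.Agent.Results.MP_f44585_an.AllBases

/-- For every base `r ≥ 2` and every irrational `b` there is a number `y` deterministic in base `r`
with `b * y` not deterministic in base `r`. -/
theorem result :
    ∀ D : ℕ → ℝ → Prop,
      (∀ (r : ℕ) (y : ℝ), D r y ↔
        ∀ ε : ℝ, 0 < ε → ∃ k : ℕ, 1 ≤ k ∧ ∃ N₀ : ℕ, ∀ N : ℕ, N₀ ≤ N →
          ∑ w : Fin k → Fin r,
            Real.negMulLog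
              ((((Finset.range N).filter (fun n => ∀ i : Fin k,
                  ⌊y * (r : ℝ) ^ (n + (i : ℕ) + 1)⌋ - (r : ℤ) * ⌊y * (r : ℝ) ^ (n + (i : ℕ))⌋
                    = ((w i : ℕ) : ℤ))).card : ℝ) / (N : ℝ))
            ≤ ε * (k : ℝ)) →
      ∀ r : ℕ, 2 ≤ r → ∀ b : ℝ, Irrational b → ∃ y : ℝ, D r y ∧ ¬ D r (b * y) := by
  intro D hD r hr b hb
  obtain ⟨y, h1, h2⟩ := Pool.Agent.H4.Det.main r hr b hb
  exact ⟨y, (hD r y).mpr h1, fun h => h2 ((hD r (b * y)).mp h)⟩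

end Pool.Agent.Results.MP_f44585_an.AllBases
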